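import Pool.Agent.Y625.ND.Pot
import Pool.Agent.Y625.ND.Ray

/-!
# A bounded solution of `-Δu + b·∇u = 0` in the plane which is nowhere continuous, `b` small in `L₂`

Let `v = ∑ λ 8^{-i} log (2R / |x - pᵢ|)` where the poles `pᵢ` are DENSE in the disc `B_R`.  Then
`u = 1 / (1 + v)` is a bounded solution of `-Δu + b·∇u = 0` in `B_R` with the drift
`b = -2 ∇v / (1 + v)`, whose `L₂` norm tends to `0` with `λ`, and `u` coincides almost everywhere on
no nonempty open set `V` with a function continuous on `V`: such a function would vanish at the poles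
in `V`, hence on `V`, but `u > 0`.  The equation is proved for the partial sums of `v`, which have
finitely many poles, and passes to the limit by dominated convergence: the functions
`|∇v_N| / (1 + v_N)` have a common square integrable majorant.
-/

set_option autoImplicit false

namespace Pool.Agent.Results.MP_89b2fa_an.NowhereContinuous

open MeasureTheory Filter Topology Set Metric
open scoped RealInnerProductSpace ContDiff ENNReal

/-- The Euclidean plane `ℝ²`. -/
abbrev Plane : Type := EuclideanSpace ℝ (Fin 2)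

/-- `h ∈ C₀^∞(B)`. -/
structure IsTest (B : Set Plane) (h : Plane → ℝ) : Prop where
  smooth : ContDiff ℝ ∞ h
  compactSupport : HasCompactSupport h
  support_subset : tsupport h ⊆ B

/-- `G` is the weak gradient of `u` in `B`: `∫_B u ∂_e h = - ∫_B ⟨G, e⟩ h` for all `h ∈ C₀^∞(B)` and
all directions `e`. -/
def IsWeakGradient (B : Set Plane) (u : Plane → ℝ) (G : Plane → Plane) : Prop :=
  ∀ h, IsTest B h → ∀ e : Plane, ∫ x in B, u x * fderiv ℝ h x e = -∫ x in B, ⟪G x, e⟫ * h x

/-- `u ∈ W₂¹(B_R)` and `u` is a solution of `-Δu + b·∇u = 0` in the disc `B_R`, that is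
`∫_{B_R} ∇u·(∇h + b h) dx = 0` for all `h ∈ C₀^∞(B_R)`, where `∇u ∈ L₂(B_R)` is the weak gradient. -/
def IsSolution (R : ℝ) (b : Plane → Plane) (u : Plane → ℝ) : Prop :=
  MemLp u 2 (volume.restrict (ball 0 R)) ∧ ∃ G : Plane → Plane,
    MemLp G 2 (volume.restrict (ball 0 R)) ∧ IsWeakGradient (ball 0 R) u G ∧
    ∀ h, IsTest (ball 0 R) h → ∫ x in ball 0 R, ⟪G x, gradient h x + h x • b x⟫ = 0

open Pool.Agent.Y625.ND
open Pool.Agent.H507R3 (mk2 om norm_om line_integral_zero line_integral_one)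

variable {D : Dat}

/-! ### The partial sums -/

/-- The approximate solution. -/
noncomputable def uN (D : Dat) (N : ℕ) (x : Plane) : ℝ := (1 + vN D N x)⁻¹

/-- Its gradient. -/
noncomputable def GN (D : Dat) (N : ℕ) (x : Plane) : Plane := ((1 + vN D N x) ^ 2)⁻¹ • gN D N x

/-- Its drift. -/
noncomputable def bN (D : Dat) (N : ℕ) (x : Plane) : Plane := (2 / (1 + vN D N x)) • gN D N x

lemma measurable_uN (N : ℕ) : Measurable (uN D N) := ((measurable_vN N).const_add 1).inv

lemma measurable_GN (N : ℕ) : Measurable (GN D N) :=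
  ((((measurable_vN N).const_add 1).pow_const 2).inv).smul (measurable_gN N)

lemma measurable_bN (N : ℕ) : Measurable (bN D N) :=
  (measurable_const.div ((measurable_vN N).const_add 1)).smul (measurable_gN N)

lemma uN_nonneg {x : Plane} (hx : x ∈ ball (0 : Plane) D.R) (N : ℕ) : 0 ≤ uN D N x := by
  have := vN_nonneg hx N
  unfold uN
  positivity

lemma uN_le_one {x : Plane} (hx : x ∈ ball (0 : Plane) D.R) (N : ℕ) : uN D N x ≤ 1 := by
  have := vN_nonneg hx N
  unfold uN
  apply inv_le_one_of_one_le₀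
  linarith

lemma norm_GN_le {x : Plane} (hx : x ∈ ball (0 : Plane) D.R) (h : Good D x) (N : ℕ) :
    ‖GN D N x‖ ≤ Mj D x := by
  have hv := vN_nonneg hx N
  have h1 := norm_gN_le (D := D) N x
  have h2 := kN_nonneg (D := D) N x
  refine le_trans ?_ (kN_le h hx N)
  rw [GN, norm_smul, Real.norm_eq_abs, abs_of_nonneg (by positivity), div_eq_inv_mul]
  apply mul_le_mul _ h1 (norm_nonneg _) (by positivity)
  apply inv_anti₀ (by positivity)
  nlinarith

lemma norm_bN_le {x : Plane} (hx : x ∈ ball (0 : Plane) D.R) (h : Good D x) (N : ℕ) :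
    ‖bN D N x‖ ≤ 2 * Mj D x := by
  have hv := vN_nonneg hx N
  have h1 := norm_gN_le (D := D) N x
  have h2 := kN_nonneg (D := D) N x
  have h3 := kN_le h hx N
  rw [bN, norm_smul, Real.norm_eq_abs, abs_of_nonneg (by positivity)]
  calc 2 / (1 + vN D N x) * ‖gN D N x‖ ≤ 2 / (1 + vN D N x) * kN D N x := by gcongr
    _ = 2 * (kN D N x / (1 + vN D N x)) := by ring
    _ ≤ _ := by gcongr

lemma ae_good (D : Dat) : ∀ᵐ x ∂(volume.restrict (ball (0 : Plane) D.R)),
    x ∈ ball (0 : Plane) D.R ∧ Good D x := by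
  filter_upwards [ae_restrict_mem measurableSet_ball, ae_restrict_of_ae (ae_Good (D := D))]
    with x h1 h2 using ⟨h1, h2⟩

/-! ### Derivatives -/

lemma hasFDerivAt_uN {x : Plane} (hx : x ∈ ball (0 : Plane) D.R) (hS : x ∉ Sx D) (N : ℕ) :
    HasFDerivAt (uN D N) (innerSL ℝ (GN D N x)) x := by
  have hv := vN_nonneg hx N
  have h1 := (hasFDerivAt_vN N hS).const_add 1
  have h2 := (hasDerivAt_inv (show (1 + vN D N x) ≠ 0 by positivity)).comp_hasFDerivAt x h1
  refine h2.congr_fderiv ?_
  ext w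
  simp [GN]

lemma hasFDerivAt_sq {x : Plane} (hx : x ∈ ball (0 : Plane) D.R) (hS : x ∉ Sx D) (N : ℕ) :
    HasFDerivAt (fun y => ((1 + vN D N y) ^ 2)⁻¹)
      (innerSL ℝ ((2 * ((1 + vN D N x) ^ 3)⁻¹) • gN D N x)) x := by
  have hv := vN_nonneg hx N
  have h1 := (hasFDerivAt_vN N hS).const_add 1
  have h3 : HasDerivAt (fun t : ℝ => (t ^ 2)⁻¹) (-(2 * ((1 + vN D N x) ^ 3)⁻¹))
      (1 + vN D N x) := by
    have h4 := (hasDerivAt_pow 2 (1 + vN D N x)).inv (show (1 + vN D N x) ^ 2 ≠ 0 by positivity)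
    refine h4.congr_deriv ?_
    have : (1 + vN D N x) ≠ 0 := by positivity
    field_simp
    norm_num
    ring
  have h2 := h3.comp_hasFDerivAt x h1
  refine h2.congr_fderiv ?_
  ext w
  simp

/-- The gradient of the product of `h` and `(1+v)^{-2}`. -/
noncomputable def Ph (D : Dat) (N : ℕ) (h : Plane → ℝ) (x : Plane) : Plane :=
  ((1 + vN D N x) ^ 2)⁻¹ • gradient h x + (h x * (2 * ((1 + vN D N x) ^ 3)⁻¹)) • gN D N x

lemma innerSL_gradient (h : Plane → ℝ) (x : Plane) : innerSL ℝ (gradient h x) = fderiv ℝ h x := by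
  ext w
  rw [innerSL_apply_apply, ← toDual_gradient (𝕜 := ℝ), InnerProductSpace.toDual_apply_apply]

lemma zero_off {h : Plane → ℝ} {x : Plane} (hx : x ∉ tsupport h) :
    h x = 0 ∧ fderiv ℝ h x = 0 ∧ gradient h x = 0 := by
  have h1 : h x = 0 := image_eq_zero_of_notMem_tsupport hx
  have h2 : fderiv ℝ h x = 0 := by
    have : h =ᶠ[𝓝 x] fun _ => 0 := notMem_tsupport_iff_eventuallyEq.mp hx
    rw [this.fderiv_eq]
    exact fderiv_const_apply 0
  refine ⟨h1, h2, ?_⟩
  rw [gradient, h2, map_zero]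

lemma hasFDerivAt_mul_off {h F : Plane → ℝ} {x : Plane} (hx : x ∉ tsupport h) :
    HasFDerivAt (fun y => F y * h y) (0 : Plane →L[ℝ] ℝ) x := by
  have : (fun y => F y * h y) =ᶠ[𝓝 x] fun _ => 0 := by
    filter_upwards [notMem_tsupport_iff_eventuallyEq.mp hx] with y hy
    rw [hy]; simp
  exact (hasFDerivAt_const (0 : ℝ) x).congr_of_eventuallyEq this

lemma hasFDerivAt_phi {h : Plane → ℝ} (hh : IsTest (ball 0 D.R) h) {x : Plane}
    (hS : x ∉ Sx D) (N : ℕ) :
    HasFDerivAt (fun y => ((1 + vN D N y) ^ 2)⁻¹ * h y) (innerSL ℝ (Ph D N h x)) x := by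
  by_cases hx : x ∈ tsupport h
  · have hd : HasFDerivAt h (fderiv ℝ h x) x :=
      (hh.smooth.differentiable (by simp) x).hasFDerivAt
    refine ((hasFDerivAt_sq (hh.support_subset hx) hS N).mul hd).congr_fderiv ?_
    rw [← innerSL_gradient]
    ext w
    simp [Ph]
    ring
  · obtain ⟨h1, h2, h3⟩ := zero_off hx
    refine (hasFDerivAt_mul_off hx).congr_fderiv ?_
    rw [Ph, h1, h3]
    simp

lemma hasFDerivAt_w {h : Plane → ℝ} (hh : IsTest (ball 0 D.R) h) {x : Plane}
    (hS : x ∉ Sx D) (N : ℕ) :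
    HasFDerivAt (fun y => uN D N y * h y)
      (uN D N x • fderiv ℝ h x + h x • innerSL ℝ (GN D N x)) x := by
  by_cases hx : x ∈ tsupport h
  · have hd : HasFDerivAt h (fderiv ℝ h x) x :=
      (hh.smooth.differentiable (by simp) x).hasFDerivAt
    exact ((hasFDerivAt_uN (hh.support_subset hx) hS N).mul hd)
  · obtain ⟨h1, h2, h3⟩ := zero_off hx
    refine (hasFDerivAt_mul_off hx).congr_fderiv ?_
    rw [h1, h2]
    simp

/-! ### The weak gradient of the approximate solution -/

lemma countable_fst (D : Dat) : ((fun x : Plane => x 0) '' Sx D).Countable :=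
  countable_Sx.image _

lemma countable_snd (D : Dat) : ((fun x : Plane => x 1) '' Sx D).Countable :=
  countable_Sx.image _

lemma mk2_notMem_of_fst {s t : ℝ} (hs : s ∉ (fun x : Plane => x 0) '' Sx D) :
    mk2 (s, t) ∉ Sx D := fun h => hs ⟨_, h, by simp [mk2]⟩

lemma mk2_notMem_of_snd {s t : ℝ} (ht : t ∉ (fun x : Plane => x 1) '' Sx D) :
    mk2 (s, t) ∉ Sx D := fun h => ht ⟨_, h, by simp [mk2]⟩

/-- The directional derivative of the product. -/
noncomputable def Wd (D : Dat) (N : ℕ) (h : Plane → ℝ) (e x : Plane) : ℝ :=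
  uN D N x * fderiv ℝ h x e + ⟪GN D N x, e⟫ * h x

lemma mk2_eq (s t : ℝ) : mk2 (s, t) = s • EuclideanSpace.single (0 : Fin 2) (1 : ℝ) +
    t • EuclideanSpace.single (1 : Fin 2) (1 : ℝ) := by
  ext i
  fin_cases i <;> simp [mk2]

lemma integral_Wd_zero {h : Plane → ℝ} (hh : IsTest (ball 0 D.R) h) (N : ℕ) :
    ∫ x, Wd D N h (EuclideanSpace.single 0 1) x = 0 := by
  apply line_integral_zero (w := fun y => uN D N y * h y) ((countable_snd D).measure_zero _)
  · intro t ht s
    have h1 := hasFDerivAt_w hh (mk2_notMem_of_snd (s := s) ht) N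
    have h2 : HasDerivAt (fun s : ℝ => mk2 (s, t)) (EuclideanSpace.single 0 1) s := by
      simp_rw [mk2_eq]
      simpa using ((hasDerivAt_id s).smul_const (EuclideanSpace.single (0 : Fin 2) (1 : ℝ))).add_const
        (t • EuclideanSpace.single (1 : Fin 2) (1 : ℝ))
    have h3 := h1.comp_hasDerivAt s h2
    refine h3.congr_deriv ?_
    simp [Wd, mul_comm]
  · exact hh.compactSupport.mul_left

lemma integral_Wd_one {h : Plane → ℝ} (hh : IsTest (ball 0 D.R) h) (N : ℕ) :
    ∫ x, Wd D N h (EuclideanSpace.single 1 1) x = 0 := by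
  apply line_integral_one (w := fun y => uN D N y * h y) ((countable_fst D).measure_zero _)
  · intro s hs t
    have h1 := hasFDerivAt_w hh (mk2_notMem_of_fst (t := t) hs) N
    have h2 : HasDerivAt (fun t : ℝ => mk2 (s, t)) (EuclideanSpace.single 1 1) t := by
      simp_rw [mk2_eq]
      simpa using ((hasDerivAt_id t).smul_const (EuclideanSpace.single (1 : Fin 2) (1 : ℝ))).const_add
        (s • EuclideanSpace.single (0 : Fin 2) (1 : ℝ))
    have h3 := h1.comp_hasDerivAt t h2
    refine h3.congr_deriv ?_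
    simp [Wd, mul_comm]
  · exact hh.compactSupport.mul_left

lemma integrable_of_ball {R : ℝ} {F : Plane → ℝ} (hF : IntegrableOn F (ball 0 R))
    (h0 : ∀ x, x ∉ ball (0 : Plane) R → F x = 0) : Integrable F := by
  rwa [integrableOn_iff_integrable_of_support_subset] at hF
  intro x hx
  by_contra hcon
  exact hx (h0 x hcon)

lemma integrable_Mj (D : Dat) : IntegrableOn (Mj D) (ball (0 : Plane) D.R) := by
  have hfin : IsFiniteMeasure (volume.restrict (ball (0 : Plane) D.R)) :=
    ⟨by rw [Measure.restrict_apply_univ]; exact measure_ball_lt_top⟩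
  exact memLp_Mj.integrable (by norm_num)

lemma integrable_Mj_sq (D : Dat) : IntegrableOn (fun x => Mj D x ^ 2) (ball (0 : Plane) D.R) :=
  (memLp_two_iff_integrable_sq measurable_Mj.aestronglyMeasurable).mp memLp_Mj

lemma test_bounds {R : ℝ} {h : Plane → ℝ} (hh : IsTest (ball 0 R) h) :
    ∃ C : ℝ, 0 ≤ C ∧ (∀ x, |h x| ≤ C) ∧ ∀ x, ‖fderiv ℝ h x‖ ≤ C := by
  obtain ⟨C1, hC1⟩ := hh.compactSupport.exists_bound_of_continuous hh.smooth.continuous
  obtain ⟨C2, hC2⟩ := (hh.compactSupport.fderiv (𝕜 := ℝ)).exists_bound_of_continuous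
    (hh.smooth.continuous_fderiv (by simp))
  refine ⟨max (max C1 C2) 0, le_max_right _ _, fun x => ?_, fun x => ?_⟩
  · exact (hC1 x).trans ((le_max_left _ _).trans (le_max_left _ _))
  · exact (hC2 x).trans ((le_max_right _ _).trans (le_max_left _ _))

lemma test_zero {R : ℝ} {h : Plane → ℝ} (hh : IsTest (ball 0 R) h) {x : Plane}
    (hx : x ∉ ball (0 : Plane) R) : h x = 0 ∧ fderiv ℝ h x = 0 ∧ gradient h x = 0 :=
  zero_off fun hmem => hx (hh.support_subset hmem)

lemma integrable_u_fderiv {h : Plane → ℝ} (hh : IsTest (ball 0 D.R) h) (e : Plane) (N : ℕ) :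
    Integrable (fun x => uN D N x * fderiv ℝ h x e) := by
  obtain ⟨C, hC0, hC1, hC2⟩ := test_bounds hh
  have hfin : IsFiniteMeasure (volume.restrict (ball (0 : Plane) D.R)) :=
    ⟨by rw [Measure.restrict_apply_univ]; exact measure_ball_lt_top⟩
  apply integrable_of_ball (R := D.R)
  · refine Integrable.mono' (integrable_const (C * ‖e‖)) ?_ ?_
    · apply Measurable.aestronglyMeasurable
      apply (measurable_uN N).mul
      exact ((hh.smooth.continuous_fderiv (by simp)).clm_apply continuous_const).measurable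
    · filter_upwards [ae_good D] with x hx
      rw [norm_mul, Real.norm_eq_abs, abs_of_nonneg (uN_nonneg hx.1 N)]
      calc uN D N x * ‖fderiv ℝ h x e‖ ≤ 1 * (C * ‖e‖) := by
            apply mul_le_mul (uN_le_one hx.1 N) _ (norm_nonneg _) (by norm_num)
            exact ((fderiv ℝ h x).le_opNorm e).trans (by gcongr; exact hC2 x)
        _ = _ := one_mul _
  · intro x hx
    rw [(test_zero hh hx).2.1]; simp

lemma integrable_G_h {h : Plane → ℝ} (hh : IsTest (ball 0 D.R) h) (e : Plane) (N : ℕ) :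
    Integrable (fun x => ⟪GN D N x, e⟫ * h x) := by
  obtain ⟨C, hC0, hC1, hC2⟩ := test_bounds hh
  apply integrable_of_ball (R := D.R)
  · refine Integrable.mono' ((integrable_Mj D).mul_const (‖e‖ * C)) ?_ ?_
    · apply Measurable.aestronglyMeasurable
      exact ((measurable_GN N).inner measurable_const).mul hh.smooth.continuous.measurable
    · filter_upwards [ae_good D] with x hx
      rw [norm_mul]
      calc ‖⟪GN D N x, e⟫‖ * ‖h x‖ ≤ (‖GN D N x‖ * ‖e‖) * C := by
            apply mul_le_mul (norm_inner_le_norm _ _) (hC1 x) (abs_nonneg _) (by positivity)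
        _ ≤ (Mj D x * ‖e‖) * C := by
            gcongr
            exact norm_GN_le hx.1 hx.2 N
        _ = _ := by ring
  · intro x hx
    rw [(test_zero hh hx).1]; simp

lemma integrable_Wd {h : Plane → ℝ} (hh : IsTest (ball 0 D.R) h) (e : Plane) (N : ℕ) :
    Integrable (Wd D N h e) := (integrable_u_fderiv hh e N).add (integrable_G_h hh e N)

lemma Wd_lin (N : ℕ) (h : Plane → ℝ) (e x : Plane) :
    Wd D N h e x = e 0 * Wd D N h (EuclideanSpace.single 0 1) x +
      e 1 * Wd D N h (EuclideanSpace.single 1 1) x := by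
  have he : e = e 0 • EuclideanSpace.single 0 1 + e 1 • EuclideanSpace.single 1 1 := by
    ext i
    fin_cases i <;> simp
  conv_lhs => rw [he]
  simp only [Wd, map_add, map_smul, inner_add_right, inner_smul_right, smul_eq_mul]
  ring

lemma integral_Wd {h : Plane → ℝ} (hh : IsTest (ball 0 D.R) h) (e : Plane) (N : ℕ) :
    ∫ x, Wd D N h e x = 0 := by
  have : Wd D N h e = fun x => e 0 * Wd D N h (EuclideanSpace.single 0 1) x +
      e 1 * Wd D N h (EuclideanSpace.single 1 1) x := funext fun x => Wd_lin N h e x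
  rw [this, integral_add ((integrable_Wd hh _ N).const_mul _) ((integrable_Wd hh _ N).const_mul _),
    integral_const_mul, integral_const_mul, integral_Wd_zero hh, integral_Wd_one hh]
  simp

lemma weakGradient_N (N : ℕ) : IsWeakGradient (ball 0 D.R) (uN D N) (GN D N) := by
  intro h hh e
  rw [setIntegral_eq_integral_of_forall_compl_eq_zero, setIntegral_eq_integral_of_forall_compl_eq_zero]
  · have h1 := integral_Wd hh e N
    unfold Wd at h1
    rw [integral_add (integrable_u_fderiv hh e N) (integrable_G_h hh e N)] at h1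
    linarith
  · intro x hx
    rw [(test_zero hh hx).1]; simp
  · intro x hx
    rw [(test_zero hh hx).2.1]; simp

/-! ### The equation of the approximate solution -/

lemma measurable_gradient {R : ℝ} {h : Plane → ℝ} (hh : IsTest (ball 0 R) h) :
    Measurable (gradient h) := by
  have h1 : Continuous (fderiv ℝ h) := hh.smooth.continuous_fderiv (by simp)
  exact ((InnerProductSpace.toDual ℝ Plane).symm.continuous.comp h1).measurable

lemma measurable_Ph {h : Plane → ℝ} (hh : IsTest (ball 0 D.R) h) (N : ℕ) :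
    Measurable (Ph D N h) := by
  have hg := measurable_gradient hh
  have hv := measurable_vN (D := D) N
  unfold Ph
  apply Measurable.add
  · exact (((hv.const_add 1).pow_const 2).inv).smul hg
  · exact (hh.smooth.continuous.measurable.mul
      ((((hv.const_add 1).pow_const 3).inv).const_mul 2)).smul (measurable_gN N)

lemma integrable_K_Ph {h : Plane → ℝ} (hh : IsTest (ball 0 D.R) h) (N : ℕ) :
    Integrable (fun x => kN D N x * ‖Ph D N h x‖) := by
  obtain ⟨C, hC0, hC1, hC2⟩ := test_bounds hh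
  apply integrable_of_ball (R := D.R)
  · have hb : IntegrableOn (fun x => C * Mj D x + 2 * C * Mj D x ^ 2) (ball (0 : Plane) D.R) :=
      ((integrable_Mj D).const_mul C).add ((integrable_Mj_sq D).const_mul (2 * C))
    refine Integrable.mono' hb ?_ ?_
    · exact ((measurable_kN N).mul (measurable_Ph hh N).norm).aestronglyMeasurable
    · filter_upwards [ae_good D] with x hx
      have hv := vN_nonneg hx.1 N
      have hK := kN_nonneg (D := D) N x
      have hg := norm_gN_le (D := D) N x
      have hgr : ‖gradient h x‖ ≤ C := by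
        rw [gradient, LinearIsometryEquiv.norm_map]; exact hC2 x
      have hM := kN_le hx.2 hx.1 N
      have hM0 : 0 ≤ kN D N x / (1 + vN D N x) := by positivity
      rw [norm_mul, norm_norm, Real.norm_eq_abs, abs_of_nonneg hK]
      have h1 : ‖Ph D N h x‖ ≤ ((1 + vN D N x) ^ 2)⁻¹ * C +
          (C * (2 * ((1 + vN D N x) ^ 3)⁻¹)) * kN D N x := by
        unfold Ph
        refine (norm_add_le _ _).trans (add_le_add ?_ ?_)
        · rw [norm_smul, Real.norm_eq_abs, abs_of_nonneg (by positivity)]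
          gcongr
        · rw [norm_smul, norm_mul]
          have : ‖2 * ((1 + vN D N x) ^ 3)⁻¹‖ = 2 * ((1 + vN D N x) ^ 3)⁻¹ := by
            rw [Real.norm_eq_abs, abs_of_nonneg (by positivity)]
          rw [this]
          gcongr
          exact hC1 x
      have h2 : ((1 + vN D N x) ^ 2)⁻¹ ≤ (1 + vN D N x)⁻¹ := by
        apply inv_anti₀ (by positivity)
        nlinarith
      have h3 : ((1 + vN D N x) ^ 3)⁻¹ ≤ ((1 + vN D N x) ^ 2)⁻¹ := by
        apply inv_anti₀ (by positivity)
        have : 0 ≤ (1 + vN D N x) ^ 2 := by positivity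
        nlinarith
      calc kN D N x * ‖Ph D N h x‖ ≤ kN D N x * (((1 + vN D N x) ^ 2)⁻¹ * C +
            (C * (2 * ((1 + vN D N x) ^ 3)⁻¹)) * kN D N x) := by gcongr
        _ ≤ kN D N x * ((1 + vN D N x)⁻¹ * C +
            (C * (2 * ((1 + vN D N x) ^ 2)⁻¹)) * kN D N x) := by
            gcongr
        _ = C * (kN D N x / (1 + vN D N x)) + 2 * C * (kN D N x / (1 + vN D N x)) ^ 2 := by
            rw [div_pow]
            field_simp
        _ ≤ _ := by gcongr
  · intro x hx
    obtain ⟨h1, _, h3⟩ := test_zero hh hx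
    rw [Ph, h1, h3]; simp

lemma om_notMem (i : ℕ) {θ : ℝ} (hθ : θ ∈ Ioo (-Real.pi) Real.pi)
    (h0 : θ ∉ dirs (Sx D) (D.p i)) {r : ℝ} (hr : 0 < r) : D.p i + r • om θ ∉ Sx D :=
  fun h => h0 ⟨hθ, r, hr, h⟩

lemma p_mem_ball (D : Dat) (i : ℕ) : D.p i ∈ ball (0 : Plane) D.R := by
  rw [mem_ball_zero_iff]
  exact D.hp i

lemma tendsto_vt_p (D : Dat) (i : ℕ) : Tendsto (vt D i) (𝓝[{D.p i}ᶜ] (D.p i)) atTop := by
  have hR := D.hR
  have h1 : Tendsto (fun x : Plane => ‖x - D.p i‖) (𝓝[{D.p i}ᶜ] (D.p i)) (𝓝[>] 0) := by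
    rw [tendsto_nhdsWithin_iff]
    constructor
    · have : Continuous fun x : Plane => ‖x - D.p i‖ := by fun_prop
      have h2 := this.tendsto (D.p i)
      rw [sub_self, norm_zero] at h2
      exact h2.mono_left nhdsWithin_le_nhds
    · filter_upwards [self_mem_nhdsWithin] with x hx
      rw [mem_Ioi, norm_pos_iff, sub_ne_zero]
      exact hx
  have h2 : Tendsto (fun r : ℝ => 2 * D.R / r) (𝓝[>] 0) atTop := by
    have := (tendsto_inv_nhdsGT_zero (𝕜 := ℝ)).const_mul_atTop (show 0 < 2 * D.R by positivity)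
    simpa [div_eq_mul_inv] using this
  exact (Real.tendsto_log_atTop.comp (h2.comp h1)).const_mul_atTop (dl_pos i)

lemma tendsto_vN_p {N i : ℕ} (hi : i ∈ Finset.range N) :
    Tendsto (vN D N) (𝓝[{D.p i}ᶜ] (D.p i)) atTop := by
  refine tendsto_atTop_mono' _ ?_ (tendsto_vt_p D i)
  filter_upwards [nhdsWithin_le_nhds (isOpen_ball.mem_nhds (p_mem_ball D i))]
    with x h5 using vt_le_vN h5 hi

lemma integral_term {h : Plane → ℝ} (hh : IsTest (ball 0 D.R) h) {N i : ℕ}
    (hi : i ∈ Finset.range N) : ∫ x, ⟪gt D i x, Ph D N h x⟫ = 0 := by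
  have h1 : ∫ x, ⟪(‖x - D.p i‖ ^ 2)⁻¹ • (x - D.p i), Ph D N h x⟫ = 0 := by
    apply ray_integral (φ := fun y => ((1 + vN D N y) ^ 2)⁻¹ * h y)
      (N := dirs (Sx D) (D.p i)) ((countable_dirs countable_Sx _).measure_zero _)
    · intro θ hθ hθ0 r hr
      exact hasFDerivAt_phi hh (om_notMem i hθ hθ0 hr) N
    · intro θ hθ hθ0
      obtain ⟨C, hC0, hC1, hC2⟩ := test_bounds hh
      have h2 : Tendsto (fun r : ℝ => D.p i + r • om θ) (𝓝[>] 0) (𝓝[{D.p i}ᶜ] (D.p i)) := by
        rw [tendsto_nhdsWithin_iff]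
        constructor
        · have : Continuous fun r : ℝ => D.p i + r • om θ := by fun_prop
          have h3 := this.tendsto 0
          rw [zero_smul, add_zero] at h3
          exact h3.mono_left nhdsWithin_le_nhds
        · filter_upwards [self_mem_nhdsWithin] with r hr hmem
          exact om_notMem i hθ hθ0 hr (by rw [mem_singleton_iff.mp hmem]; exact ⟨i, rfl⟩)
      have h3 := (tendsto_atTop_add_const_left _ (1 : ℝ) ((tendsto_vN_p hi).comp h2))
      have h4 := (tendsto_pow_atTop (n := 2) (by norm_num)).comp h3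
      have h5 := (tendsto_inv_atTop_zero.comp h4)
      refine squeeze_zero_norm (a := fun r => ((1 + vN D N (D.p i + r • om θ)) ^ 2)⁻¹ * C) ?_ ?_
      · intro r
        rw [norm_mul, Real.norm_eq_abs, abs_of_nonneg (by positivity)]
        gcongr
        exact hC1 _
      · simpa using h5.mul_const C
    · exact hh.compactSupport.mul_left
  have h2 : (fun x => ⟪gt D i x, Ph D N h x⟫) =
      fun x => dl D i * ⟪(‖x - D.p i‖ ^ 2)⁻¹ • (x - D.p i), Ph D N h x⟫ := by
    funext x
    rw [gt, real_inner_smul_left]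
  rw [h2, integral_const_mul, h1, mul_zero]

lemma integral_total {h : Plane → ℝ} (hh : IsTest (ball 0 D.R) h) (N : ℕ) :
    ∫ x, ⟪gN D N x, Ph D N h x⟫ = 0 := by
  have e : (fun x => ⟪gN D N x, Ph D N h x⟫) =
      fun x => ∑ i ∈ Finset.range N, ⟪gt D i x, Ph D N h x⟫ := by
    funext x
    rw [gN, sum_inner]
  rw [e, integral_finsetSum]
  · exact Finset.sum_eq_zero fun i hi => integral_term hh hi
  · intro i hi
    refine (integrable_K_Ph hh N).mono'
      ((measurable_gt i).inner (measurable_Ph hh N)).aestronglyMeasurable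
      (Eventually.of_forall fun x => ?_)
    refine (norm_inner_le_norm _ _).trans (mul_le_mul_of_nonneg_right ?_ (norm_nonneg _))
    exact Finset.single_le_sum (f := fun i => ‖gt D i x‖) (fun j _ => norm_nonneg _) hi

lemma equation_N {h : Plane → ℝ} (hh : IsTest (ball 0 D.R) h) (N : ℕ) :
    ∫ x in ball 0 D.R, ⟪GN D N x, gradient h x + h x • bN D N x⟫ = 0 := by
  rw [setIntegral_eq_integral_of_forall_compl_eq_zero]
  · rw [← integral_total hh N]
    congr 1
    funext x
    by_cases hx : x ∈ ball (0 : Plane) D.R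
    · have hv := vN_nonneg hx N
      simp only [GN, bN, Ph, inner_add_right, inner_smul_right, inner_smul_left, conj_trivial]
      field_simp
    · obtain ⟨h1, _, h3⟩ := test_zero hh hx
      rw [Ph, h1, h3]; simp
  · intro x hx
    obtain ⟨h1, _, h3⟩ := test_zero hh hx
    rw [h1, h3]; simp

/-! ### The limit -/

/-- The solution. -/
noncomputable def uf (D : Dat) (x : Plane) : ℝ := (1 + vp D x)⁻¹

/-- Its gradient. -/
noncomputable def Gf (D : Dat) (x : Plane) : Plane := ((1 + vp D x) ^ 2)⁻¹ • gv D x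

/-- The drift. -/
noncomputable def bf (D : Dat) (x : Plane) : Plane := (2 / (1 + vp D x)) • gv D x

lemma measurable_uf (D : Dat) : Measurable (uf D) := (measurable_vp.const_add 1).inv

lemma measurable_Gf (D : Dat) : Measurable (Gf D) :=
  (((measurable_vp.const_add 1).pow_const 2).inv).smul measurable_gv

lemma measurable_bf (D : Dat) : Measurable (bf D) :=
  (measurable_const.div (measurable_vp.const_add 1)).smul measurable_gv

lemma uf_pos {x : Plane} (hx : x ∈ ball (0 : Plane) D.R) : 0 < uf D x := by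
  have := vp_nonneg hx
  unfold uf
  positivity

lemma uf_le_one {x : Plane} (hx : x ∈ ball (0 : Plane) D.R) : uf D x ≤ 1 := by
  have := vp_nonneg hx
  unfold uf
  apply inv_le_one_of_one_le₀
  linarith

lemma tendsto_uN {x : Plane} (hx : x ∈ ball (0 : Plane) D.R) (h : Good D x) :
    Tendsto (fun N => uN D N x) atTop (𝓝 (uf D x)) := by
  have hv := vp_nonneg hx
  exact ((tendsto_vN h hx).const_add 1).inv₀ (by positivity)

lemma tendsto_GN {x : Plane} (hx : x ∈ ball (0 : Plane) D.R) (h : Good D x) :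
    Tendsto (fun N => GN D N x) atTop (𝓝 (Gf D x)) := by
  have hv := vp_nonneg hx
  exact ((((tendsto_vN h hx).const_add 1).pow 2).inv₀ (by positivity)).smul (tendsto_gN h)

lemma tendsto_bN {x : Plane} (hx : x ∈ ball (0 : Plane) D.R) (h : Good D x) :
    Tendsto (fun N => bN D N x) atTop (𝓝 (bf D x)) := by
  have hv := vp_nonneg hx
  exact (tendsto_const_nhds.div ((tendsto_vN h hx).const_add 1) (by positivity)).smul
    (tendsto_gN h)

lemma norm_Gf_le {x : Plane} (hx : x ∈ ball (0 : Plane) D.R) (h : Good D x) :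
    ‖Gf D x‖ ≤ Mj D x :=
  le_of_tendsto' (tendsto_GN hx h).norm fun N => norm_GN_le hx h N

lemma norm_bf_le {x : Plane} (hx : x ∈ ball (0 : Plane) D.R) (h : Good D x) :
    ‖bf D x‖ ≤ 2 * Mj D x :=
  le_of_tendsto' (tendsto_bN hx h).norm fun N => norm_bN_le hx h N

lemma memLp_Gf (D : Dat) : MemLp (Gf D) 2 (volume.restrict (ball (0 : Plane) D.R)) := by
  refine memLp_Mj.mono (measurable_Gf D).aestronglyMeasurable ?_
  filter_upwards [ae_good D] with x hx
  exact (norm_Gf_le hx.1 hx.2).trans (le_abs_self _)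

lemma memLp_bf (D : Dat) : MemLp (bf D) 2 (volume.restrict (ball (0 : Plane) D.R)) := by
  refine (memLp_Mj.const_mul 2).mono (measurable_bf D).aestronglyMeasurable ?_
  filter_upwards [ae_good D] with x hx
  exact (norm_bf_le hx.1 hx.2).trans (le_abs_self _)

lemma memLp_uf (D : Dat) : MemLp (uf D) 2 (volume.restrict (ball (0 : Plane) D.R)) := by
  have hfin : IsFiniteMeasure (volume.restrict (ball (0 : Plane) D.R)) :=
    ⟨by rw [Measure.restrict_apply_univ]; exact measure_ball_lt_top⟩
  refine (memLp_const (1 : ℝ)).mono (measurable_uf D).aestronglyMeasurable ?_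
  filter_upwards [ae_good D] with x hx
  rw [Real.norm_eq_abs, abs_of_nonneg (uf_pos hx.1).le, norm_one]
  exact uf_le_one hx.1

lemma integral_bf (D : Dat) :
    ∫ x in ball (0 : Plane) D.R, ‖bf D x‖ ^ 2 ≤ 64 * Real.pi * D.lam := by
  have hl := D.hl
  have h1 : ∫ x in ball (0 : Plane) D.R, ‖bf D x‖ ^ 2 ≤
      ∫ x in ball (0 : Plane) D.R, 4 * Mj D x ^ 2 := by
    apply integral_mono_of_nonneg (Eventually.of_forall fun x => by positivity)
      ((integrable_Mj_sq D).const_mul 4)
    filter_upwards [ae_good D] with x hx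
    calc ‖bf D x‖ ^ 2 ≤ (2 * Mj D x) ^ 2 :=
          pow_le_pow_left₀ (norm_nonneg _) (norm_bf_le hx.1 hx.2) 2
      _ = _ := by ring
  have h2 : ∫ x in ball (0 : Plane) D.R, Mj D x ^ 2 ≤ 16 * Real.pi * D.lam := by
    rw [integral_eq_lintegral_of_nonneg_ae (Eventually.of_forall fun x => sq_nonneg _)
      (measurable_Mj.pow_const 2).aestronglyMeasurable]
    exact ENNReal.toReal_le_of_le_ofReal (by positivity) lintegral_Mj
  rw [integral_const_mul] at h1
  linarith

lemma weakGradient (D : Dat) : IsWeakGradient (ball 0 D.R) (uf D) (Gf D) := by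
  intro h hh e
  obtain ⟨C, hC0, hC1, hC2⟩ := test_bounds hh
  have hfin : IsFiniteMeasure (volume.restrict (ball (0 : Plane) D.R)) :=
    ⟨by rw [Measure.restrict_apply_univ]; exact measure_ball_lt_top⟩
  have hfd : Measurable fun x => fderiv ℝ h x e :=
    ((hh.smooth.continuous_fderiv (by simp)).clm_apply continuous_const).measurable
  have l1 : Tendsto (fun N => ∫ x in ball (0 : Plane) D.R, uN D N x * fderiv ℝ h x e) atTop
      (𝓝 (∫ x in ball (0 : Plane) D.R, uf D x * fderiv ℝ h x e)) := by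
    refine tendsto_integral_of_dominated_convergence (fun _ => C * ‖e‖)
      (fun N => ((measurable_uN N).mul hfd).aestronglyMeasurable) (integrable_const _)
      (fun N => ?_) ?_
    · filter_upwards [ae_good D] with x hx
      rw [norm_mul, Real.norm_eq_abs, abs_of_nonneg (uN_nonneg hx.1 N)]
      calc uN D N x * ‖fderiv ℝ h x e‖ ≤ 1 * (C * ‖e‖) := by
            apply mul_le_mul (uN_le_one hx.1 N) _ (norm_nonneg _) (by norm_num)
            exact ((fderiv ℝ h x).le_opNorm e).trans (by gcongr; exact hC2 x)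
        _ = _ := one_mul _
    · filter_upwards [ae_good D] with x hx
      exact (tendsto_uN hx.1 hx.2).mul_const _
  have l2 : Tendsto (fun N => ∫ x in ball (0 : Plane) D.R, ⟪GN D N x, e⟫ * h x) atTop
      (𝓝 (∫ x in ball (0 : Plane) D.R, ⟪Gf D x, e⟫ * h x)) := by
    refine tendsto_integral_of_dominated_convergence (fun x => Mj D x * (‖e‖ * C))
      (fun N => (((measurable_GN N).inner measurable_const).mul
        hh.smooth.continuous.measurable).aestronglyMeasurable)
      ((integrable_Mj D).mul_const _) (fun N => ?_) ?_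
    · filter_upwards [ae_good D] with x hx
      rw [norm_mul]
      calc ‖⟪GN D N x, e⟫‖ * ‖h x‖ ≤ (‖GN D N x‖ * ‖e‖) * C := by
            apply mul_le_mul (norm_inner_le_norm _ _) (hC1 x) (abs_nonneg _) (by positivity)
        _ ≤ (Mj D x * ‖e‖) * C := by
            gcongr
            exact norm_GN_le hx.1 hx.2 N
        _ = _ := by ring
    · filter_upwards [ae_good D] with x hx
      exact ((tendsto_GN hx.1 hx.2).inner tendsto_const_nhds).mul_const _
  have l3 := l2.neg
  refine tendsto_nhds_unique l1 (l3.congr fun N => ?_)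
  exact (weakGradient_N N h hh e).symm

lemma equation {h : Plane → ℝ} (hh : IsTest (ball 0 D.R) h) :
    ∫ x in ball 0 D.R, ⟪Gf D x, gradient h x + h x • bf D x⟫ = 0 := by
  obtain ⟨C, hC0, hC1, hC2⟩ := test_bounds hh
  have l1 : Tendsto (fun N => ∫ x in ball (0 : Plane) D.R,
      ⟪GN D N x, gradient h x + h x • bN D N x⟫) atTop
      (𝓝 (∫ x in ball (0 : Plane) D.R, ⟪Gf D x, gradient h x + h x • bf D x⟫)) := by
    refine tendsto_integral_of_dominated_convergence
      (fun x => C * Mj D x + 2 * C * Mj D x ^ 2) (fun N => ?_)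
      (((integrable_Mj D).const_mul C).add ((integrable_Mj_sq D).const_mul (2 * C)))
      (fun N => ?_) ?_
    · exact ((measurable_GN N).inner ((measurable_gradient hh).add
        (hh.smooth.continuous.measurable.smul (measurable_bN N)))).aestronglyMeasurable
    · filter_upwards [ae_good D] with x hx
      have hM := Mj_nonneg (D := D) x
      have hgr : ‖gradient h x‖ ≤ C := by
        rw [gradient, LinearIsometryEquiv.norm_map]; exact hC2 x
      have h1 : ‖gradient h x + h x • bN D N x‖ ≤ C + C * (2 * Mj D x) := by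
        refine (norm_add_le _ _).trans (add_le_add hgr ?_)
        rw [norm_smul]
        exact mul_le_mul (hC1 x) (norm_bN_le hx.1 hx.2 N) (norm_nonneg _) hC0
      calc ‖⟪GN D N x, gradient h x + h x • bN D N x⟫‖
          ≤ ‖GN D N x‖ * ‖gradient h x + h x • bN D N x‖ := norm_inner_le_norm _ _
        _ ≤ Mj D x * (C + C * (2 * Mj D x)) :=
          mul_le_mul (norm_GN_le hx.1 hx.2 N) h1 (norm_nonneg _) hM
        _ = _ := by ring
    · filter_upwards [ae_good D] with x hx
      exact (tendsto_GN hx.1 hx.2).inner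
        (tendsto_const_nhds.add ((tendsto_bN hx.1 hx.2).const_smul _))
  refine tendsto_nhds_unique l1 (tendsto_const_nhds.congr fun N => ?_)
  exact (equation_N hh N).symm

/-! ### Nowhere continuity -/

lemma nowhere_continuous (hd : ∀ V : Set Plane, IsOpen V → V.Nonempty → V ⊆ ball 0 D.R →
    ∃ i, D.p i ∈ V) {V : Set Plane} (hV : IsOpen V) (hne : V.Nonempty) (hVR : V ⊆ ball 0 D.R) :
    ¬ ∃ g : Plane → ℝ, ContinuousOn g V ∧ ∀ᵐ x ∂volume.restrict V, uf D x = g x := by
  rintro ⟨g, hg, hae⟩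
  rw [ae_restrict_iff' hV.measurableSet] at hae
  set T : Set Plane := {x | (x ∈ V → uf D x = g x) ∧ Good D x} with hT
  have hTd : Dense T := by
    apply Measure.dense_of_ae (μ := (volume : Measure Plane))
    filter_upwards [hae, ae_Good (D := D)] with x h1 h2 using ⟨h1, h2⟩
  have hgc : ∀ x ∈ V, ContinuousAt g x := fun x hx => hg.continuousAt (hV.mem_nhds hx)
  have h0 : ∀ i, D.p i ∈ V → g (D.p i) = 0 := by
    intro i hi
    have hne : (𝓝[V ∩ T] (D.p i)).NeBot :=
      mem_closure_iff_nhdsWithin_neBot.mp (hTd.open_subset_closure_inter hV hi)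
    have h1 : Tendsto g (𝓝[V ∩ T] (D.p i)) (𝓝 (g (D.p i))) :=
      (hgc _ hi).tendsto.mono_left nhdsWithin_le_nhds
    have h2 : Tendsto (uf D) (𝓝[V ∩ T] (D.p i)) (𝓝 0) := by
      have h3 := (tendsto_vt_p D i).mono_left
        (nhdsWithin_mono (D.p i) (show V ∩ T ⊆ {D.p i}ᶜ from fun x hx hmem =>
          hx.2.2.notMem (by rw [mem_singleton_iff.mp hmem]; exact ⟨i, rfl⟩)))
      have h4 : Tendsto (vp D) (𝓝[V ∩ T] (D.p i)) atTop := by
        refine tendsto_atTop_mono' _ ?_ h3
        filter_upwards [self_mem_nhdsWithin] with x hx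
        exact vt_le_vp hx.2.2 (hVR hx.1) i
      exact tendsto_inv_atTop_zero.comp (tendsto_atTop_add_const_left _ (1 : ℝ) h4)
    refine tendsto_nhds_unique (h1.congr' ?_) h2
    filter_upwards [self_mem_nhdsWithin] with x hx
    exact (hx.2.1 hx.1).symm
  -- a good point of `V`
  obtain ⟨x, hxV, hxT⟩ := hTd.inter_open_nonempty V hV hne
  have hpos : 0 < g x := by
    rw [← hxT.1 hxV]
    exact uf_pos (hVR hxV)
  -- near `x` the function `g` is positive, but there is a pole
  have hopen : IsOpen (V ∩ g ⁻¹' Ioi 0) := hg.isOpen_inter_preimage hV isOpen_Ioi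
  obtain ⟨i, hi⟩ := hd _ hopen ⟨x, hxV, hpos⟩ (inter_subset_left.trans hVR)
  have h3 : 0 < g (D.p i) := hi.2
  rw [h0 i hi.1] at h3
  exact lt_irrefl _ h3

/-- a dense sequence of the disc -/
lemma exists_dense {R : ℝ} (hR : 0 < R) : ∃ p : ℕ → Plane, (∀ i, ‖p i‖ < R) ∧
    ∀ V : Set Plane, IsOpen V → V.Nonempty → V ⊆ ball 0 R → ∃ i, p i ∈ V := by
  have : Nonempty (ball (0 : Plane) R) := ⟨⟨0, mem_ball_self hR⟩⟩
  refine ⟨fun i => (TopologicalSpace.denseSeq (ball (0 : Plane) R) i : Plane), fun i => ?_,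
    fun V hV hne hVR => ?_⟩
  · exact mem_ball_zero_iff.mp (TopologicalSpace.denseSeq (ball (0 : Plane) R) i).2
  · obtain ⟨x, hx⟩ := hne
    obtain ⟨i, hi⟩ := (TopologicalSpace.denseRange_denseSeq (ball (0 : Plane) R)).exists_mem_open
      (hV.preimage continuous_subtype_val) ⟨⟨x, hVR hx⟩, hx⟩
    exact ⟨i, hi⟩

/-- **A bounded nowhere continuous solution with a small drift.**  In every disc `B_R ⊂ ℝ²` and for
every `ε > 0` there are a drift `b ∈ L₂(B_R; ℝ²)` with `∫ |b|² ≤ ε` and a solution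
`u ∈ W₂¹(B_R)`, `0 < u ≤ 1`, of `-Δu + b·∇u = 0` in `B_R` such that on no nonempty open set
`V ⊆ B_R` does `u` coincide almost everywhere with a function which is continuous on `V`. -/
theorem result (R : ℝ) (hR : 0 < R) (ε : ℝ) (hε : 0 < ε) :
    ∃ (b : Plane → Plane) (u : Plane → ℝ),
      Measurable b ∧ MemLp b 2 (volume.restrict (ball 0 R)) ∧
      ∫ x in ball (0 : Plane) R, ‖b x‖ ^ 2 ≤ ε ∧ IsSolution R b u ∧
      (∀ x ∈ ball (0 : Plane) R, 0 < u x ∧ u x ≤ 1) ∧
      ∀ V : Set Plane, IsOpen V → V.Nonempty → V ⊆ ball 0 R →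
        ¬ ∃ g : Plane → ℝ, ContinuousOn g V ∧ ∀ᵐ x ∂volume.restrict V, u x = g x := by
  obtain ⟨p, hp, hd⟩ := exists_dense hR
  have hπ := Real.pi_pos
  let D : Dat := ⟨R, ε / (64 * Real.pi), p, hR, by positivity, hp⟩
  refine ⟨bf D, uf D, measurable_bf D, memLp_bf D, ?_, ⟨memLp_uf D, Gf D, memLp_Gf D,
    weakGradient D, fun h hh => equation (D := D) hh⟩,
    fun x hx => ⟨uf_pos (D := D) hx, uf_le_one (D := D) hx⟩,
    fun V hV hne hVR => nowhere_continuous (D := D) hd hV hne hVR⟩
  refine (integral_bf D).trans (le_of_eq ?_)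
  change 64 * Real.pi * (ε / (64 * Real.pi)) = ε
  field_simp

end Pool.Agent.Results.MP_89b2fa_an.NowhereContinuous
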